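import Pool.Agent.Helper29.AK.Defs
import Pool.Agent.Helper82.AH.Basic

/-!
# MP_b55b7c_an: AH algebras with dimension growth `o(n^2)`, from the short definition to the
definition with bundled continuous functions
-/

open scoped ENNReal NNReal InnerProductSpace ComplexOrder
open Filter Topology

attribute [-instance] CStarMatrix.instAlgebra CStarMatrix.instModule CStarMatrix.instSMul
  CStarMatrix.instMulAction CStarMatrix.instDistribMulAction

noncomputable section
namespace RC
universe u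
namespace AK29

section
variable {A : Type u} [CStarAlgebra A] [PartialOrder A] [StarOrderedRing A]
  {D N : ℕ} {X : Set (Fin D → ℝ)} (p : C(X, Mt N)) (proj : ∀ x, IsStarProjection (p x))
  (ψ : C(X, Mt N) →ₗ[ℂ] A) (comp : ∀ f, ψ (p * f * p) = ψ f)
  (mul : ∀ f g, ψ f * ψ g = ψ (f * p * g)) (mstar : ∀ f, ψ (star f) = star (ψ f))

include proj comp mul mstar in
theorem raw_nonneg (f : C(X, Mt N)) (hf : ∀ x, 0 ≤ f x) : 0 ≤ ψ f := by
  have hf' : ∀ x, 0 ≤ (p * f * p) x := by
    intro x
    have h1 := star_left_conjugate_nonneg (hf x) (p x)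
    rw [(proj x).isSelfAdjoint.star_eq] at h1
    exact h1
  obtain ⟨c, _, hc1, hc2⟩ := exists_sqrt _ hf'
  have hcp : c * p = c := by
    have h1 : c * (1 - p) = 0 := by
      ext1 x
      have h2 : star (c x * (1 - p x)) * (c x * (1 - p x)) = 0 := by
        have h3 : c x * c x = p x * f x * p x := congrArg (fun w => w x) hc2
        have h4 : star (c x) = c x := congrArg (fun w => w x) hc1
        have h5 : star (p x) = p x := (proj x).isSelfAdjoint.star_eq
        have h6 : p x * p x = p x := (proj x).isIdempotentElem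
        rw [star_mul, star_sub, star_one, h4, h5, mul_assoc, ← mul_assoc (c x) (c x), h3,
          mul_sub, mul_one, mul_assoc (p x * f x) (p x) (p x), h6, sub_self, mul_zero]
      exact CStarRing.star_mul_self_eq_zero_iff _ |>.mp h2
    have h2 : c - c * p = 0 := by
      rw [← h1]
      ext1 x
      simp only [ContinuousMap.sub_apply, ContinuousMap.mul_apply, mul_sub, mul_one]
    exact (sub_eq_zero.1 h2).symm
  have h1 : ψ f = star (ψ c) * ψ c := by
    rw [← mstar, hc1, mul, hcp, hc2, comp]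
  rw [h1]
  exact star_mul_self_nonneg _

include proj comp mul mstar in
theorem raw_norm_le (f : C(X, Mt N)) (c : ℝ) (hc : 0 ≤ c) (h : ∀ x, ‖f x‖ ≤ c) :
    ‖ψ f‖ ≤ c := by
  have hq : star (ψ 1) * ψ 1 = ψ 1 := by
    have hs1 : star (1 : C(X, Mt N)) = 1 := by
      ext1 x
      exact star_one (Mt N)
    rw [← mstar, hs1, mul]
    have h1 : (1 : C(X, Mt N)) * p * 1 = p * 1 * p := by
      ext1 x
      have h6 : p x * p x = p x := (proj x).isIdempotentElem
      simp only [ContinuousMap.mul_apply, ContinuousMap.one_apply, one_mul, mul_one, h6]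
    rw [h1, comp]
  have hq1 : ‖ψ 1‖ ≤ 1 := by
    have h1 : ‖ψ 1‖ * ‖ψ 1‖ = ‖ψ 1‖ := by
      rw [← CStarRing.norm_star_mul_self, hq]
    by_contra h2
    push Not at h2
    nlinarith
  have h0 : star (ψ f) * ψ f = ψ (star f * p * f) := by
    rw [← mstar, mul]
  have hle : star (ψ f) * ψ f ≤ (c ^ 2) • ψ 1 := by
    have h1 := raw_nonneg p proj ψ comp mul mstar (((c ^ 2 : ℝ) : ℂ) • (1 : C(X, Mt N)) -
      star f * p * f) fun x => by
        have h2 : star (f x) * p x * f x ≤ (c ^ 2 : ℝ) • (1 : Mt N) := by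
          have h3 : p x ≤ 1 := (proj x).le_one
          have h4 := star_left_conjugate_le_conjugate h3 (f x)
          rw [mul_one] at h4
          have h5 := CStarAlgebra.star_mul_le_algebraMap_norm_sq (a := f x)
          rw [Algebra.algebraMap_eq_smul_one] at h5
          have h6 : (‖f x‖ ^ 2 : ℝ) • (1 : Mt N) ≤ (c ^ 2 : ℝ) • (1 : Mt N) :=
            smul_le_smul_of_nonneg_right (by gcongr; exact h x) zero_le_one
          exact (h4.trans h5).trans h6
        have h7 : (((c ^ 2 : ℝ) : ℂ) • (1 : C(X, Mt N)) - star f * p * f) x =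
            (c ^ 2 : ℝ) • (1 : Mt N) - star (f x) * p x * f x := by
          rw [ContinuousMap.sub_apply, ContinuousMap.smul_apply, ContinuousMap.one_apply]
          rfl
        rw [h7]
        exact sub_nonneg.2 h2
    rw [map_sub, map_smul, ← h0] at h1
    have h2 : ((c ^ 2 : ℝ) : ℂ) • ψ 1 = (c ^ 2) • ψ 1 := rfl
    rw [h2] at h1
    exact sub_nonneg.1 h1
  have h1 : ‖star (ψ f) * ψ f‖ ≤ ‖(c ^ 2) • ψ 1‖ :=
    CStarAlgebra.norm_le_norm_of_nonneg_of_le (star_mul_self_nonneg _) hle
  rw [CStarRing.norm_star_mul_self, norm_smul, Real.norm_of_nonneg (by positivity)] at h1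
  have h2 : ‖ψ f‖ * ‖ψ f‖ ≤ c ^ 2 := h1.trans (by nlinarith [sq_nonneg c])
  nlinarith [norm_nonneg (ψ f), abs_le_of_sq_le_sq' (a := ‖ψ f‖) (b := c) (by nlinarith) hc]

end

section
variable {D N : ℕ} {X : Set (Fin D → ℝ)}

/-- Extension by zero of a matrix valued function. -/
def ext (f : C(X, Mt N)) : (Fin D → ℝ) → Matrix (Fin N) (Fin N) ℂ := by
  classical
  exact fun x => if h : x ∈ X then (f ⟨x, h⟩).mat else 0

theorem ext_apply (f : C(X, Mt N)) (x : X) : ext f x = (f x).mat := by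
  unfold ext
  simp

theorem ext_cont (f : C(X, Mt N)) : ContinuousOn (ext f) X := by
  rw [continuousOn_iff_continuous_domRestrict]
  have h1 : X.domRestrict (ext f) = fun x => (f x).mat := by
    funext x
    exact ext_apply f x
  rw [h1]
  exact (CStarMatrix.ofMatrixL (m := Fin N) (n := Fin N) (A := ℂ)).symm.continuous.comp
    f.continuous

/-- A continuous matrix valued function. -/
def cts (f : (Fin D → ℝ) → Matrix (Fin N) (Fin N) ℂ) (hf : ContinuousOn f X) : C(X, Mt N) where
  toFun x := CStarMatrix.ofMatrix (f x)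
  continuous_toFun := by
    have h1 : Continuous fun x : X => f x := continuousOn_iff_continuous_domRestrict.1 hf
    exact (CStarMatrix.ofMatrixL (m := Fin N) (n := Fin N) (A := ℂ)).continuous.comp h1

theorem cts_apply (f : (Fin D → ℝ) → Matrix (Fin N) (Fin N) ℂ) (hf : ContinuousOn f X) (x : X) :
    (cts f hf x).mat = f x := rfl

theorem mat_inj {a b : Mt N} (h : a.mat = b.mat) : a = b := h

end

section
variable {A : Type u} [CStarAlgebra A] [PartialOrder A] [StarOrderedRing A]
  {D N : ℕ} (X : Set (Fin D → ℝ)) (p : (Fin D → ℝ) → Matrix (Fin N) (Fin N) ℂ)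
  (ψ : ((Fin D → ℝ) → Matrix (Fin N) (Fin N) ℂ) → A) (ht : BTop X p) (hh : BHom X p ψ)

omit [PartialOrder A] [StarOrderedRing A] in
include hh in
theorem congr' {f g : (Fin D → ℝ) → Matrix (Fin N) (Fin N) ℂ} (h : ∀ x ∈ X, f x = g x) :
    ψ f = ψ g := hh.congr f g fun x hx => by rw [h x hx]

/-- The linear map on the bundled continuous functions. -/
def lin : C(X, Mt N) →ₗ[ℂ] A where
  toFun f := ψ (ext f)
  map_add' f g := by
    rw [← hh.add _ _ (ext_cont f) (ext_cont g)]
    refine congr' X p ψ hh fun x hx => ?_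
    show ext (f + g) x = ext f x + ext g x
    have h1 := ext_apply (f + g) ⟨x, hx⟩
    have h2 := ext_apply f ⟨x, hx⟩
    have h3 := ext_apply g ⟨x, hx⟩
    rw [h1, h2, h3]
    rfl
  map_smul' c f := by
    rw [RingHom.id_apply, ← hh.smul c _ (ext_cont f)]
    refine congr' X p ψ hh fun x hx => ?_
    have h1 := ext_apply (c • f) ⟨x, hx⟩
    have h2 := ext_apply f ⟨x, hx⟩
    rw [h1, h2]
    rfl

/-- A block. -/
def toH : HCor A where
  D := D
  N := N
  X := X
  cpt := ht.1
  p := cts p ht.2.1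
  proj x := by
    have h1 := ht.2.2 x x.2
    refine ⟨?_, ?_⟩
    · exact h1.1
    · exact h1.2
  ψ := lin X p ψ hh
  comp f := by
    refine hh.congr _ _ fun x hx => ?_
    have h1 := ext_apply (cts p ht.2.1 * f * cts p ht.2.1) ⟨x, hx⟩
    have h2 := ext_apply f ⟨x, hx⟩
    have h3 : ((cts p ht.2.1 * f * cts p ht.2.1) ⟨x, hx⟩).mat =
        p x * (f ⟨x, hx⟩).mat * p x := rfl
    have h4 := (ht.2.2 x hx).1
    rw [h1, h2, h3]
    calc p x * (p x * (f ⟨x, hx⟩).mat * p x) * p x =
        (p x * p x) * (f ⟨x, hx⟩).mat * (p x * p x) := by noncomm_ring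
      _ = _ := by rw [h4]
  mul f g := by
    show ψ (ext f) * ψ (ext g) = ψ (ext (f * cts p ht.2.1 * g))
    rw [← hh.mul _ _ (ext_cont f) (ext_cont g)]
    refine congr' X p ψ hh fun x hx => ?_
    have h1 := ext_apply (f * cts p ht.2.1 * g) ⟨x, hx⟩
    have h2 := ext_apply f ⟨x, hx⟩
    have h3 := ext_apply g ⟨x, hx⟩
    rw [h1, h2, h3]
    rfl
  map_star' f := by
    show ψ (ext (star f)) = star (ψ (ext f))
    rw [← hh.conj _ (ext_cont f)]
    refine congr' X p ψ hh fun x hx => ?_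
    have h1 := ext_apply (star f) ⟨x, hx⟩
    have h2 := ext_apply f ⟨x, hx⟩
    rw [h1, h2]
    rfl
  norm_le f c hc h := by
    refine raw_norm_le (cts p ht.2.1) ?_ (lin X p ψ hh) ?_ ?_ ?_ f c hc h
    · intro x
      have h1 := ht.2.2 x x.2
      exact ⟨h1.1, h1.2⟩
    · intro f
      refine hh.congr _ _ fun x hx => ?_
      have h1 := ext_apply (cts p ht.2.1 * f * cts p ht.2.1) ⟨x, hx⟩
      have h2 := ext_apply f ⟨x, hx⟩
      have h3 : ((cts p ht.2.1 * f * cts p ht.2.1) ⟨x, hx⟩).mat =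
          p x * (f ⟨x, hx⟩).mat * p x := rfl
      have h4 := (ht.2.2 x hx).1
      rw [h1, h2, h3]
      calc p x * (p x * (f ⟨x, hx⟩).mat * p x) * p x =
          (p x * p x) * (f ⟨x, hx⟩).mat * (p x * p x) := by noncomm_ring
        _ = _ := by rw [h4]
    · intro f g
      show ψ (ext f) * ψ (ext g) = ψ (ext (f * cts p ht.2.1 * g))
      rw [← hh.mul _ _ (ext_cont f) (ext_cont g)]
      refine congr' X p ψ hh fun x hx => ?_
      have h1 := ext_apply (f * cts p ht.2.1 * g) ⟨x, hx⟩
      have h2 := ext_apply f ⟨x, hx⟩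
      have h3 := ext_apply g ⟨x, hx⟩
      rw [h1, h2, h3]
      rfl
    · intro f
      show ψ (ext (star f)) = star (ψ (ext f))
      rw [← hh.conj _ (ext_cont f)]
      refine congr' X p ψ hh fun x hx => ?_
      have h1 := ext_apply (star f) ⟨x, hx⟩
      have h2 := ext_apply f ⟨x, hx⟩
      rw [h1, h2]
      rfl

end
end AK29

open AK29

theorem slowH_of_slowAH {A : Type u} [CStarAlgebra A] [PartialOrder A] [StarOrderedRing A]
    (h : SlowAH A) : SlowH A := by
  intro F ε K hε
  obtain ⟨n, H, ⟨ho, hs⟩, hg, hn⟩ := h F ε K hε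
  have h1 : ∀ l, (toH (H.X l) (H.p l) (H.ψ l) (H.top l) (H.hom l)).ψ 1 = H.ψ l 1 := by
    intro l
    refine congr' (H.X l) (H.p l) (H.ψ l) (H.hom l) fun x hx => ?_
    exact ext_apply (1 : C(H.X l, Mt (H.N l))) ⟨x, hx⟩
  refine ⟨n, fun l => toH (H.X l) (H.p l) (H.ψ l) (H.top l) (H.hom l), ?_, ?_, ?_, ?_⟩
  · intro l m hlm f g
    have h2 := (toH (H.X l) (H.p l) (H.ψ l) (H.top l) (H.hom l)).psi_mul_one f
    have h3 := (toH (H.X m) (H.p m) (H.ψ m) (H.top m) (H.hom m)).one_mul_psi g
    rw [← h2, ← h3, h1, h1, mul_assoc, ← mul_assoc (H.ψ l 1) (H.ψ m 1), ho l m hlm, zero_mul,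
      mul_zero]
  · rw [← hs]
    exact Finset.sum_congr rfl fun l _ => h1 l
  · intro l x
    exact hg l x.1 x.2
  · intro a ha
    obtain ⟨f, hf, hle⟩ := hn a ha
    refine ⟨fun l => cts (f l) (hf l), ?_⟩
    have h2 : ∀ l, (toH (H.X l) (H.p l) (H.ψ l) (H.top l) (H.hom l)).ψ (cts (f l) (hf l)) =
        H.ψ l (f l) := by
      intro l
      refine congr' (H.X l) (H.p l) (H.ψ l) (H.hom l) fun x hx => ?_
      exact ext_apply (cts (f l) (hf l)) ⟨x, hx⟩
    rw [Finset.sum_congr rfl fun l _ => h2 l]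
    exact hle

end RC
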