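import Mathlib

/-!
# MP_b55b7c_an: AH algebras with dimension growth `o(n^2)`, a short definition
-/

noncomputable section
namespace RC
universe u

/-- `X` is a compact subset of `ℝ^D` and `p` is a projection in `C(X, M_N)`. -/
def BTop {D N : ℕ} (X : Set (Fin D → ℝ)) (p : (Fin D → ℝ) → Matrix (Fin N) (Fin N) ℂ) : Prop :=
  IsCompact X ∧ ContinuousOn p X ∧ ∀ x ∈ X, p x * p x = p x ∧ (p x).conjTranspose = p x

/-- `ψ f` is additive for `f ∈ C(X, M_N)`. -/
def BAdd {A : Type u} [CStarAlgebra A] {D N : ℕ} (X : Set (Fin D → ℝ))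
    (ψ : ((Fin D → ℝ) → Matrix (Fin N) (Fin N) ℂ) → A) : Prop :=
  ∀ f g, ContinuousOn f X → ContinuousOn g X → ψ (f + g) = ψ f + ψ g

/-- `ψ f` is homogeneous. -/
def BSmul {A : Type u} [CStarAlgebra A] {D N : ℕ} (X : Set (Fin D → ℝ))
    (ψ : ((Fin D → ℝ) → Matrix (Fin N) (Fin N) ℂ) → A) : Prop :=
  ∀ (c : ℂ) (f), ContinuousOn f X → ψ (fun x => c • f x) = c • ψ f

/-- `ψ` is a `*`-homomorphism from the corner `p C(X, M_N) p` to `A`, given by its composition with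
the compression `f ↦ p f p` of `C(X, M_N)`. -/
structure BHom {A : Type u} [CStarAlgebra A] {D N : ℕ} (X : Set (Fin D → ℝ))
    (p : (Fin D → ℝ) → Matrix (Fin N) (Fin N) ℂ)
    (ψ : ((Fin D → ℝ) → Matrix (Fin N) (Fin N) ℂ) → A) : Prop where
  congr : ∀ f g, (∀ x ∈ X, p x * f x * p x = p x * g x * p x) → ψ f = ψ g
  add : BAdd X ψ
  smul : BSmul X ψ
  mul : ∀ f g, ContinuousOn f X → ContinuousOn g X → ψ (fun x => f x * p x * g x) = ψ f * ψ g
  conj : ∀ f, ContinuousOn f X → ψ (fun x => (f x).conjTranspose) = star (ψ f)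

/-- Homogeneous blocks `p C(X, M_N) p → A` with `X ⊆ ℝ^D` compact. -/
structure Blocks (A : Type u) [CStarAlgebra A] (n : ℕ) where
  D : Fin n → ℕ
  N : Fin n → ℕ
  X : ∀ l, Set (Fin (D l) → ℝ)
  p : ∀ l, (Fin (D l) → ℝ) → Matrix (Fin (N l)) (Fin (N l)) ℂ
  ψ : ∀ l, ((Fin (D l) → ℝ) → Matrix (Fin (N l)) (Fin (N l)) ℂ) → A
  top : ∀ l, BTop (X l) (p l)
  hom : ∀ l, BHom (X l) (p l) (ψ l)

/-- The images of the units are orthogonal projections with sum one. -/
def Blocks.Unital {A : Type u} [CStarAlgebra A] {n : ℕ} (H : Blocks A n) : Prop :=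
  (∀ l m, l ≠ m → H.ψ l 1 * H.ψ m 1 = 0) ∧ ∑ l, H.ψ l 1 = 1

/-- The ranks of the blocks are large in comparison with the square roots of the dimensions. -/
def Blocks.Growth {A : Type u} [CStarAlgebra A] {n : ℕ} (H : Blocks A n) (K : ℝ) : Prop :=
  ∀ l, ∀ x ∈ H.X l, K * ((H.D l : ℝ) + 1) ≤ (H.p l x).trace.re ^ 2

/-- `a` is approximated by the image of the blocks. -/
def Blocks.Near {A : Type u} [CStarAlgebra A] {n : ℕ} (H : Blocks A n) (a : A) (ε : ℝ) : Prop :=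
  ∃ f : ∀ l, (Fin (H.D l) → ℝ) → Matrix (Fin (H.N l)) (Fin (H.N l)) ℂ,
    (∀ l, ContinuousOn (f l) (H.X l)) ∧ ‖a - ∑ l, H.ψ l (f l)‖ ≤ ε

/-- Dimension growth `o(n^2)`: every finite subset of `A` is approximately contained in a unital
`*`-homomorphic image of a finite direct sum of homogeneous algebras `p C(X, M_N) p`, where `X` is a
compact subset of `ℝ^D` and `K (D + 1) ≤ (rank p(x))^2` for all `x`; here `K` is as large as we
wish. (Every compact metrizable space of dimension `d` is homeomorphic to a compact subset of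
`ℝ^(2 d + 1)`.) -/
def SlowAH (A : Type u) [CStarAlgebra A] : Prop :=
  ∀ (F : Finset A) (ε K : ℝ), 0 < ε → ∃ (n : ℕ) (H : Blocks A n),
    H.Unital ∧ H.Growth K ∧ ∀ a ∈ F, H.Near a ε

end RC
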