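import Pool.Agent.Helper29.ZR.Good
import Pool.Agent.Helper29.AK.Conv
import Pool.Agent.Helper82.AH.Fin

/-!
# MP_b55b7c_an: regularity conditions on `A`, `A^α` or `C*(G,A,α)`
-/

open scoped ENNReal NNReal InnerProductSpace ComplexOrder
open Filter Topology

attribute [-instance] CStarMatrix.instAlgebra CStarMatrix.instModule CStarMatrix.instSMul
  CStarMatrix.instMulAction CStarMatrix.instDistribMulAction

noncomputable section
namespace RC
universe u

/-- One of: approximate stable rank one, uniform property Gamma, one tracial state dominates all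
quasitraces, AH with dimension growth `o(n^2)`, radius of comparison zero. -/
def Reg (M : Type u) [CStarAlgebra M] [PartialOrder M] [StarOrderedRing M] : Prop :=
  ASR M ∨ UGamma M ∨ OneDom M ∨ SlowAH M ∨ rc M = 0

theorem good_of_reg {M : Type u} [CStarAlgebra M] [PartialOrder M] [StarOrderedRing M]
    (h : Reg M) : Good M := by
  rcases h with h | h | h | h | h
  · exact Or.inl h
  · exact Or.inr (Or.inl h)
  · exact Or.inr (Or.inr (Or.inl h))
  · exact Or.inl (slow_asr_dom M (slowH_of_slowAH h)).1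
  · exact Or.inr (Or.inr (Or.inr h))

theorem finalR (A : Type u) [CStarAlgebra A] [PartialOrder A] [StarOrderedRing A]
    (hs : IsSimpleC A) (hinf : ¬ FiniteDimensional ℂ A)
    (hC : (∃ C : ℝ, ∀ σ : QTrace A, ∃ φ : TState A, ∀ x : A, 0 ≤ x →
      σ.τ Unit (one1 x) ≤ C * (φ.φ x).re) ∨ SlowAH A)
    (G : Type) [Group G] [Fintype G] (α : G → A ≃⋆ₐ[ℂ] A) (hα : IsAct α)
    (h : Reg A ∨
      (∃ (B : Type u) (_ : CStarAlgebra B) (_ : PartialOrder B) (_ : StarOrderedRing B)
        (j : B →⋆ₐ[ℂ] A), IsFix α j ∧ Reg B) ∨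
      ∃ (R : Type u) (_ : CStarAlgebra R) (_ : PartialOrder R) (_ : StarOrderedRing R)
        (k : A →⋆ₐ[ℂ] R) (w : G → R), IsCross α k w ∧ Reg R) :
    (∀ (B : Type u) [CStarAlgebra B] [PartialOrder B] [StarOrderedRing B] (j : B →⋆ₐ[ℂ] A),
      IsFix α j → rc A ≤ rc B) ∧
    (∀ (R : Type u) [CStarAlgebra R] [PartialOrder R] [StarOrderedRing R] (k : A →⋆ₐ[ℂ] R)
      (w : G → R), IsCross α k w → rc A / Fintype.card G ≤ rc R) := by
  obtain ⟨C, hCd⟩ : ∃ C : ℝ, ∀ σ : QTrace A, ∃ φ : TState A, ∀ x : A, 0 ≤ x →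
      σ.τ Unit (one1 x) ≤ C * (φ.φ x).re := by
    rcases hC with h1 | h1
    · exact h1
    · exact ⟨1, (slow_asr_dom A (slowH_of_slowAH h1)).2⟩
  refine finalZ A hs hinf C hCd G α hα ?_
  rcases h with h | ⟨B, i1, i2, i3, j, hj, h⟩ | ⟨R, i1, i2, i3, k, w, hk, h⟩
  · exact Or.inl (good_of_reg h)
  · exact Or.inr (Or.inl ⟨B, i1, i2, i3, j, hj, good_of_reg h⟩)
  · exact Or.inr (Or.inr ⟨R, i1, i2, i3, k, w, hk, good_of_reg h⟩)

end RC
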